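import Pool.Agent.Y194.MU.Sharp

/-!
# Weights of the class groups in `p`-extensions, at finite level and in the limit

Let `A(F) ≅ ⨁ ℤ/p^{v_i}` be the `p`-part of the class group of a number field `F` (narrow class group, if `p = 2` and `F`
has real places) and

  `W_j(A) = ∑_i (1 - p^{-min(j, v_i)})`,   `W(A) = ∑_i (1 - p^{-v_i})`.

By class field theory the number of the homomorphisms `Gal(Ω/F) → ℤ/p^k` that kill all the inertia groups is
`|A(F)/p^k| = p^{∑ min(k, v_i)}`. If also the decomposition groups at the places above `T` are killed, the same holds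
for the quotient `A_T(F)` of `A(F)` by the classes of the places above `T`.

Theorem.

1. Let `F'/F` be a Galois extension of number fields of degree `p^m`, and `t` the number of the places of `F` which ramify in
   `F'` (or lie above `T` and do not split completely in `F'`). Then for all `j`

     `W_j(A_T(F')) + (p^m - 1)(1 - p^{-j}) ≤ p^m (W_j(A_T(F)) + t m (1 - p^{-1}))`,

   and `W(A_T(F')) + (p^m - 1) ≤ p^m (W(A_T(F)) + t m (1 - p^{-1}))`.

2. Let `L'/L` be a Galois extension of degree `p^m` of number fields, `E_n` a tower of number fields linearly disjoint from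
   it over `L`, such that the number of the exceptional places of `L E_n` is `o([E_n : K])`. If the numbers of the
   homomorphisms for `L E_n`, `L' E_n` grow like `p^{(a k + ∑ min(k, v_i)) [E_n : K]}` and
   `p^{(a' k + ∑ min(k, v'_i)) [E_n : K]}` for all `k`, then for all `j`

     `a' (1 - p^{-j}) + ∑_i (1 - p^{-min(j, v'_i)}) ≤ p^m (a (1 - p^{-j}) + ∑_i (1 - p^{-min(j, v_i)}))`,

   and `a' + ∑_i (1 - p^{-v'_i}) ≤ p^m (a + ∑_i (1 - p^{-v_i}))`.

Application to Q1. Let `E_n` be the layers of the cyclotomic `ℤ_p`-extension. All the finite places have finitely many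
extensions to it, hence `t` is bounded along the layers; by Iwasawa's theorem `a = a' = 0` and `v_i = m_i` are the
exponents of the summands `Λ/p^{m_i}` of `X(L_cyc)`. Q1 asserts that there are none. Part 2 restricts the possible
`m_i(L')` by the `m_i(L)` for every Galois `p`-extension `L'/L`; part 1 gives the same for each layer, with a bounded
error term. For `j = 1` these are the classical inequalities of ranks (Iwasawa: the permanence of `μ = 0`); they
are new for `j > 1`.
-/

set_option autoImplicit false

open IsDedekindDomain NumberField Filter Topology Pool.Agent.Y194.TS Pool.Agent.Y194.MU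

namespace Pool.Agent.Results.MP_a4986b_nt.ClassGroupWeights

section

variable {K Ω : Type} [Field K] [Field Ω] [Algebra K Ω]

/-- `L ⊆ L'` are finite over `K` and `L'/L` is a Galois extension of degree `p^m` -/
structure PExt (p m : ℕ) (L L' : IntermediateField K Ω) : Prop where
  finite : FiniteDimensional K L'
  le : L ≤ L'
  galois : (L'.fixingSubgroup.subgroupOf L.fixingSubgroup).Normal
  degree : Module.finrank K L' = p ^ m * Module.finrank K L

/-- the homomorphisms `Gal(Ω/F) → ℤ/p^k` killing the local groups are `p^{∑ min(k, v_i)}` in number, for all `k`: the class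
group modulo the classes of the places above `T` has `p`-part `⨁ ℤ/p^{v_i}` -/
def HasExponents (p : ℕ) (T : Set (HeightOneSpectrum (𝓞 K))) (F : IntermediateField K Ω)
    (v : Multiset ℕ) : Prop :=
  ∀ k, Finite (LChars T F.fixingSubgroup (p ^ k)) ∧
    Nat.card (LChars T F.fixingSubgroup (p ^ k)) = p ^ (v.map (fun i => min k i)).sum

/-- these numbers `N(n, k)` for the fields `F E_n` are finite, and `log_p N(n, k) / [E_n : K]` converges to
`a k + ∑ min(k, v_i)` for all `k` -/
def TypeAt (p : ℕ) (T : Set (HeightOneSpectrum (𝓞 K))) (E : ℕ → IntermediateField K Ω)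
    (F : IntermediateField K Ω) (a : ℕ) (v : Multiset ℕ) : Prop :=
  (∀ n k, Finite (LChars T (F ⊔ E n).fixingSubgroup (p ^ k))) ∧
    Density p (fun n => Module.finrank K (E n))
      (fun n k => Nat.card (LChars T (F ⊔ E n).fixingSubgroup (p ^ k))) a v

end

/-- (1) the inequalities for one Galois extension of `p`-power degree; (2) the inequalities for the limits in a tower -/
theorem result {K Ω : Type} [Field K] [NumberField K] [Field Ω] [Algebra K Ω] [IsAlgClosure K Ω]
    {p : ℕ} [Fact p.Prime] (T : Set (HeightOneSpectrum (𝓞 K))) {m : ℕ}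
    {L L' : IntermediateField K Ω} (hL : PExt p m L L') :
    (∀ (t : ℕ) (v v' : Multiset ℕ), FewPlaces T L.fixingSubgroup L'.fixingSubgroup t →
      HasExponents p T L v → HasExponents p T L' v' →
        (∀ j, trunc p j 0 v' + ((p : ℝ) ^ m - 1) * (1 - ((p : ℝ)⁻¹) ^ j) ≤
          (p : ℝ) ^ m * (trunc p j 0 v + t * m * (1 - (p : ℝ)⁻¹))) ∧
        full p 0 v' + ((p : ℝ) ^ m - 1) ≤
          (p : ℝ) ^ m * (full p 0 v + t * m * (1 - (p : ℝ)⁻¹))) ∧
    ∀ (E : ℕ → IntermediateField K Ω) (t : ℕ → ℕ) (a a' : ℕ) (v v' : Multiset ℕ),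
      (∀ n, FiniteDimensional K (E n)) →
      (∀ n, Module.finrank K (L' ⊔ E n : IntermediateField K Ω) =
        p ^ m * Module.finrank K (L ⊔ E n : IntermediateField K Ω)) →
      (∀ n, FewPlaces T (L ⊔ E n).fixingSubgroup (L' ⊔ E n).fixingSubgroup (t n)) →
      Tendsto (fun n => (t n : ℝ) / Module.finrank K (E n)) atTop (𝓝 0) →
      TypeAt p T E L a v → TypeAt p T E L' a' v' →
        (∀ j, trunc p j a' v' ≤ (p : ℝ) ^ m * trunc p j a v) ∧
        full p a' v' ≤ (p : ℝ) ^ m * full p a v := by
  have hgal : IsGalois K Ω := IsAlgClosure.isGalois K Ω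
  have i1 := hL.finite
  constructor
  · intro t v v' hfew hv hv'
    have hp2 : (2 : ℝ) ≤ p := by exact_mod_cast (Fact.out : p.Prime).two_le
    have hlog : 0 < Real.log p := Real.log_pos (by linarith)
    have hinv : (p : ℝ)⁻¹ < 1 := inv_lt_one_of_one_lt₀ (by linarith)
    have hinv0 : (0 : ℝ) ≤ (p : ℝ)⁻¹ := by positivity
    have hle : L'.fixingSubgroup ≤ L.fixingSubgroup :=
      IntermediateField.fixingSubgroup_antitone hL.le
    have hidx : L'.fixingSubgroup.relIndex L.fixingSubgroup = p ^ m := by
      have i0 : FiniteDimensional K L :=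
        FiniteDimensional.of_injective (IntermediateField.inclusion hL.le).toLinearMap
          (IntermediateField.inclusion_injective hL.le)
      have h1 := Subgroup.relIndex_mul_index hle
      rw [← IntermediateField.finrank_eq_fixingSubgroup_index,
        ← IntermediateField.finrank_eq_fixingSubgroup_index, hL.degree] at h1
      exact Nat.eq_of_mul_eq_mul_right (Module.finrank_pos) h1
    have key : ∀ j, trunc p j 0 v' + ((p : ℝ) ^ m - 1) * (1 - ((p : ℝ)⁻¹) ^ j) ≤
          (p : ℝ) ^ m * (trunc p j 0 v + t * m * (1 - (p : ℝ)⁻¹)) := by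
      intro j
      have h := finite_level (p := p) T hle hL.galois L'.fixingSubgroup_isOpen hidx hfew
        (fun k => (hv k).1) (fun k => (hv' k).1) j
      have e1 : (fun k => Nat.card (LChars T L.fixingSubgroup (p ^ k))) = typ p 0 v := by
        funext k
        rw [(hv k).2]
        unfold typ
        rw [zero_mul, zero_add]
      have e2 : (fun k => Nat.card (LChars T L'.fixingSubgroup (p ^ k))) = typ p 0 v' := by
        funext k
        rw [(hv' k).2]
        unfold typ
        rw [zero_mul, zero_add]
      have e3 : (fun k => p ^ (1 * k)) = typ p 1 0 := by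
        funext k
        unfold typ
        rw [Multiset.map_zero, Multiset.sum_zero, add_zero]
      rw [e1, e2, e3] at h
      have h2 := mul_le_mul_of_nonneg_left h (show 0 ≤ 1 - (p : ℝ)⁻¹ by linarith)
      have d1 := DD_typ (p := p) 0 v j
      have d2 := DD_typ (p := p) 0 v' j
      have d3 := DD_typ (p := p) 1 0 j
      have d4 : trunc p j 1 0 = 1 - ((p : ℝ)⁻¹) ^ j := by
        unfold trunc
        rw [Multiset.map_zero, Multiset.sum_zero, add_zero, Nat.cast_one, one_mul]
      have h3 : Real.log p * (trunc p j 0 v' + ((p : ℝ) ^ m - 1) * (1 - ((p : ℝ)⁻¹) ^ j)) ≤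
          Real.log p * ((p : ℝ) ^ m * (trunc p j 0 v + t * m * (1 - (p : ℝ)⁻¹))) := by
        calc _ = Real.log p * trunc p j 0 v' +
              ((p : ℝ) ^ m - 1) * (Real.log p * trunc p j 1 0) := by rw [d4]; ring
          _ = (1 - (p : ℝ)⁻¹) * (DD p (typ p 0 v') j +
              ((p : ℝ) ^ m - 1) * DD p (typ p 1 0) j) := by rw [← d2, ← d3]; ring
          _ ≤ _ := h2
          _ = (p : ℝ) ^ m * ((1 - (p : ℝ)⁻¹) * DD p (typ p 0 v) j +
              t * m * (1 - (p : ℝ)⁻¹) * Real.log p) := by ring
          _ = _ := by rw [d1]; ring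
      exact le_of_mul_le_mul_left h3 hlog
    refine ⟨key, ?_⟩
    have hlim : ∀ w : Multiset ℕ, Tendsto (fun j => trunc p j 0 w) atTop (𝓝 (full p 0 w)) := by
      intro w
      obtain ⟨B, hB⟩ : ∃ B, ∀ i ∈ w, i ≤ B :=
        ⟨w.sum, fun i hi => Multiset.single_le_sum (fun _ _ => Nat.zero_le _) i hi⟩
      refine tendsto_const_nhds.congr' ?_
      filter_upwards [eventually_ge_atTop B] with j hj
      unfold full trunc
      rw [Nat.cast_zero, zero_mul]
      congr 2
      exact Multiset.map_congr rfl fun i hi => by rw [min_eq_right ((hB i hi).trans hj)]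
    have hz : Tendsto (fun j : ℕ => ((p : ℝ)⁻¹) ^ j) atTop (𝓝 0) :=
      tendsto_pow_atTop_nhds_zero_of_lt_one hinv0 hinv
    have l1 := (hlim v').add ((hz.const_sub 1).const_mul ((p : ℝ) ^ m - 1))
    have l2 := ((hlim v).add_const (t * m * (1 - (p : ℝ)⁻¹))).const_mul ((p : ℝ) ^ m)
    have l3 := le_of_tendsto_of_tendsto' l1 l2 key
    rwa [sub_zero, mul_one] at l3
  · intro E t a a' v v' hE hdeg hfew ht hv hv'
    exact ram_pair T hL.le hL.galois E hE hdeg ht hfew hv.1 hv'.1 hv.2 hv'.2

end Pool.Agent.Results.MP_a4986b_nt.ClassGroupWeights
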