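import Pool.Agent.Y156.W.Main

/-!
# Iwasawa's `μ = 0` conjecture: number fields of degree prime to `p`

The conjecture that `μ = 0` for the cyclotomic `ℤ_p`-extensions of all number fields, `p` odd, is equivalent
to its restriction to the number fields `K` whose degree over `ℚ` is not divisible by `p`; for each choice of
a number field `M p`, it is also equivalent to its restriction to the number fields `K` that contain `M p`
and whose degree over `M p` is not divisible by `p` (for instance `M p = ℚ(μ_p)`, where the degree of `K`
over `ℚ` is again not divisible by `p`).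

The vanishing of the `μ`-invariants is given by its known properties (`IsMu`).
-/

set_option autoImplicit false

namespace Pool.Agent.Results.MP_a4986b_nt.DegreePrimeToP

open Pool.Agent.Y156.W

/-- The reduction to the number fields of degree prime to `p`. -/
theorem result {Ω : Type} [Field Ω] [Algebra ℚ Ω] [IsAlgClosure ℚ Ω]
    (mu0 : ℕ → IntermediateField ℚ Ω → Prop)
    (hmu : ∀ p : ℕ, p.Prime → p ≠ 2 → IsMu p (fun _ => True) (fun _ => True) (mu0 p))
    (M : ℕ → IntermediateField ℚ Ω) (hM : ∀ p, FiniteDimensional ℚ (M p)) :
    (∀ p : ℕ, p.Prime → p ≠ 2 → ∀ F : IntermediateField ℚ Ω, FiniteDimensional ℚ F → mu0 p F) ↔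
      ∀ p : ℕ, p.Prime → p ≠ 2 → ∀ K : IntermediateField ℚ Ω, PrimeTo p (M p) K → mu0 p K :=
  ⟨fun h p hp hp2 => (reduction_all hp (hmu p hp hp2) (hM p) trivial).1 (h p hp hp2),
    fun h p hp hp2 => (reduction_all hp (hmu p hp hp2) (hM p) trivial).2 (h p hp hp2)⟩

end Pool.Agent.Results.MP_a4986b_nt.DegreePrimeToP
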